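import Pool.Agent.C4U.Stmts

/-!
# Row c4u OPW: `o (2 ^ s (2 e + 1)) = 2 ^ s`
-/

set_option autoImplicit false

namespace Pool.Agent.C4U.H27

open Pool.Agent.C4U
open Pool.Agent.C4F (cn)

/-- `Od d (2 ^ s (2 e + 1))` implies that `2 ^ s` divides `d` -/
theorem two_pow_dvd {s e d : ℕ} (h : Od d (2 ^ s * (2 * e + 1))) : 2 ^ s ∣ d := by
  obtain ⟨f, -, hf⟩ := h
  have hco : Nat.Coprime (2 ^ s) (2 * f + 1) := by
    apply Nat.Coprime.pow_left
    rw [Nat.coprime_two_left]
    exact ⟨f, rfl⟩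
  have hd : 2 ^ s ∣ d * (2 * f + 1) := by
    rw [← hf]
    exact dvd_mul_right _ _
  exact hco.dvd_of_dvd_mul_right hd

theorem opw (cnl : CnlStmt) : OpwStmt := by
  intro s e
  obtain ⟨-, -, h3, -, -⟩ := cnl
  have hpos : 0 < 2 ^ s := Nat.two_pow_pos s
  have hle : 2 ^ s ≤ 2 ^ s * (2 * e + 1) := Nat.le_mul_of_pos_right _ (by omega)
  have key : cn (fun v => ∀ d < v + 1, ¬ Od d (2 ^ s * (2 * e + 1))) (2 ^ s * (2 * e + 1))
      = min (2 ^ s) (2 ^ s * (2 * e + 1)) := by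
    apply h3
    intro v _
    constructor
    · intro h
      by_contra hv
      push Not at hv
      refine h (2 ^ s) (by omega) ⟨e, ?_, rfl⟩
      have : 2 * e + 1 ≤ 2 ^ s * (2 * e + 1) := Nat.le_mul_of_pos_left _ hpos
      omega
    · intro hv d hd hod
      have h1 : 2 ^ s ∣ d := two_pow_dvd hod
      have h2 : d ≠ 0 := by
        rintro rfl
        obtain ⟨f, -, hf⟩ := hod
        rw [zero_mul] at hf
        have : 0 < 2 ^ s * (2 * e + 1) := Nat.mul_pos hpos (by omega)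
        omega
      have h3' := Nat.le_of_dvd (Nat.pos_of_ne_zero h2) h1
      omega
  unfold o
  rw [key]
  exact min_eq_left hle

end Pool.Agent.C4U.H27
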